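import Pool.Agent.Helper77.PPO.Goals1
import Pool.Agent.Helper48.RL.FIX
import Pool.Agent.Helper11.RL.POL
import Pool.Agent.Helper93.RL.DES
import Pool.Agent.Helper51.RL.EXP
import Pool.Agent.Helper72.RL.ISO
import Pool.Agent.Helper56.RL.ROU
import Pool.Agent.Helper96.RL.WGT
import Pool.Agent.Helper99.RL.TOR
import Pool.Agent.Helper40.RL.LSD
import Pool.Agent.Helper49.RL.LIFT
import Pool.Agent.Helper30.RL.SQR
import Pool.Agent.Helper2.RL.EF1
import Pool.Agent.Helper4.RL.TYP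
import Pool.Agent.Helper90.LE.CYC
import Pool.Agent.Helper42.RD.EXA

/-!
# Project PP, packet PPO-O_TRV: the lifting theorem for `χ₀ = 1`
-/

namespace Pool.Agent.Helper86.PPO

open NumberField Polynomial Module IsDedekindDomain Pool.Agent.Helper51.SigLeo
open Pool.Agent.Helper51.RP Pool.Agent.Helper42.RD Pool.Agent.Helper11.LE Pool.Agent.Helper77.PPO
open Pool.Agent.Helper77.RL (Sqr AtT LData NoTor SplitAt up)
open Pool.Agent.Helper40.RS (bel)
open Pool.Agent.Helper40.RD (bel_of_above ordW)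
open Pool.Agent.Helper49.RL (ordv_of_norm tame_desc val_eq)

theorem l_lsd : Pool.Agent.Helper77.RL.L_LSD :=
  Pool.Agent.Helper40.RL.l_lsd
    (Pool.Agent.Helper99.RL.l_tor Pool.Agent.Helper51.RL.l_exp Pool.Agent.Helper72.RL.l_iso
      Pool.Agent.Helper56.RL.l_rou)
    Pool.Agent.Helper96.RL.l_wgt Pool.Agent.Helper11.RL.l_pol

/-! ### Small facts -/

/-- The two ways down agree. -/
theorem above_sq {K M L M' : Type} [Field K] [NumberField K] [Field M] [NumberField M] [Field L]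
    [NumberField L] [Field M'] [NumberField M'] [Algebra K M] [Algebra K L] [Algebra K M']
    [Algebra M M'] [Algebra L M'] [IsScalarTower K M M'] [IsScalarTower K L M']
    {W : HeightOneSpectrum (𝓞 M')} {v : HeightOneSpectrum (𝓞 M)}
    {V : HeightOneSpectrum (𝓞 L)} {u : HeightOneSpectrum (𝓞 K)} (h1 : Above W v)
    (h2 : Above W V) (h3 : Above v u) : Above V u := by
  unfold Above at *
  rw [← h2, ← h3, ← h1]
  ext x
  rw [Ideal.mem_comap, Ideal.mem_comap, Ideal.mem_comap, Ideal.mem_comap]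
  have e : algebraMap (𝓞 M) (𝓞 M') (algebraMap (𝓞 K) (𝓞 M) x) =
      algebraMap (𝓞 L) (𝓞 M') (algebraMap (𝓞 K) (𝓞 L) x) := by
    apply RingOfIntegers.ext
    change algebraMap M M' (algebraMap K M (x : K)) = algebraMap L M' (algebraMap K L (x : K))
    rw [← IsScalarTower.algebraMap_apply K M M', ← IsScalarTower.algebraMap_apply K L M']
  rw [e]

theorem dvd_of_conj {p : ℕ} (hp : p ≠ 0) {K K₁ : Type} [Field K] [NumberField K] [Field K₁]
    [NumberField K₁] [Algebra K K₁] {ε a : K₁} (ha : a ≠ 0) (haO : OmType p K ε a)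
    {Q Q' : HeightOneSpectrum (𝓞 K₁)} (h : ConjP K Q' Q) (hd : (p : ℤ) ∣ ordv Q' a) :
    (p : ℤ) ∣ ordv Q a := by
  obtain ⟨τ, hτ⟩ := h
  obtain ⟨n, c, -, hc⟩ := haO τ
  have h1 : ordv Q a = ordv Q' (τ a) := by
    unfold ordv
    rw [hτ]
  have hc0 : c ≠ 0 := by
    rintro rfl
    rw [zero_pow hp, mul_zero] at hc
    exact ha ((map_eq_zero_iff τ τ.injective).1 hc)
  rw [h1, hc, Pool.Agent.Helper49.RL.ordv_mul Q' (pow_ne_zero _ ha) (pow_ne_zero _ hc0),
    Pool.Agent.Helper49.RL.ordv_pow, Pool.Agent.Helper49.RL.ordv_pow]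
  exact dvd_add (Dvd.dvd.mul_left hd _) (dvd_mul_right _ _)

/-- The operator `P(1)` is the power with exponent the sum of the coefficients. -/
theorem pol_one {p : ℕ} {K M : Type} [Field K] [Field M] [Algebra K M] (P : (ZMod p)[X])
    (x : Mˣ) : pol P (1 : M ≃ₐ[K] M) x = x ^ ∑ j ∈ P.support, (P.coeff j).val := by
  unfold pol
  rw [MonoidHom.finsetProd_apply, ← Finset.prod_pow_eq_pow_sum]
  refine Finset.prod_congr rfl fun j _ => ?_
  rw [MonoidHom.pow_apply, one_pow]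
  congr 1

theorem pw_pol_one {p : ℕ} [Fact p.Prime] {K M : Type} [Field K] [Field M] [Algebra K M]
    (P : (ZMod p)[X]) (hP : P.eval 1 = 0) (x : Mˣ) : Pw p (pol P (1 : M ≃ₐ[K] M) x) := by
  rw [pol_one]
  have h1 : ((∑ j ∈ P.support, (P.coeff j).val : ℕ) : ZMod p) = 0 := by
    push_cast
    rw [eval_eq_sum, Polynomial.sum] at hP
    rw [← hP]
    refine Finset.sum_congr rfl fun j _ => ?_
    rw [one_pow, mul_one, ZMod.natCast_val, ZMod.cast_id]
  obtain ⟨c, hc⟩ := (ZMod.natCast_eq_zero_iff _ _).1 h1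
  refine ⟨x ^ c, ?_⟩
  rw [hc, ← pow_mul, mul_comm]

/-- Integers whose difference to `1` has norm `1`. -/
theorem ne_one_of_norm {p : ℕ} [Fact p.Prime] {k : Type} [NormedField k] [NormedAlgebra ℚ_[p] k]
    [IsUltrametricDist k] {i : ℕ} (h : ‖(1 : k) - i‖ = 1) : (i : ZMod p) ≠ 1 := by
  intro hi
  have h1 : (p : ℤ) ∣ 1 - (i : ℤ) := by
    rw [← ZMod.intCast_zmod_eq_zero_iff_dvd]
    push_cast
    rw [hi, sub_self]
  have h2 : ‖((1 - (i : ℤ) : ℤ) : ℤ_[p])‖ < 1 := (PadicInt.norm_int_lt_one_iff_dvd _).2 h1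
  have h3 := Pool.Agent.Helper4.RL.norm_emb (k := k) ((1 - (i : ℤ) : ℤ) : ℤ_[p])
  rw [map_intCast] at h3
  push_cast at h3 h2
  rw [h] at h3
  rw [← h3] at h2
  exact lt_irrefl _ h2

/-- `L` does not contain the `p`-th roots of unity. -/
theorem no_root {p : ℕ} [Fact p.Prime] {n : ℕ} {K K₁ L L₁ : Type} [Field K] [NumberField K]
    [Field K₁] [NumberField K₁] [Field L] [NumberField L] [Field L₁] [NumberField L₁]
    [Algebra K K₁] [Algebra K L] [Algebra K L₁] [Algebra K₁ L₁] [Algebra L L₁]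
    [IsScalarTower K K₁ L₁] [IsScalarTower K L L₁] {ε : K₁} (hc : Cyc p K K₁ ε)
    (hK : ¬ ∃ ξ : K, IsPrimitiveRoot ξ p) (hS : Sqr p n K K₁ L L₁) :
    ¬ ∃ ξ : L, IsPrimitiveRoot ξ p := by
  rintro ⟨ξ, hξ⟩
  have hp : p.Prime := Fact.out
  have : NeZero p := ⟨hp.ne_zero⟩
  obtain ⟨-, -, h3, -⟩ := Pool.Agent.Helper90.LE.l_cyc p K K₁ ε hc
  apply hK
  rw [← h3]
  have : FiniteDimensional K L₁ := Module.Finite.of_restrictScalars_finite ℚ K L₁
  have : FiniteDimensional K K₁ := Module.Finite.of_restrictScalars_finite ℚ K K₁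
  have := hc.gal
  obtain ⟨-, -, -, -, hf⟩ := Pool.Agent.Helper30.RL.l_sqr p n K K₁ L L₁ hS
  have hξ' : IsPrimitiveRoot (algebraMap L L₁ ξ) p :=
    hξ.map_of_injective (algebraMap L L₁).injective
  have hε' : (algebraMap K₁ L₁ ε) ^ p = 1 := by
    rw [← map_pow, hc.prim.pow_eq_one, map_one]
  obtain ⟨i, -, hi⟩ := hξ'.eq_pow_of_pow_eq_one hε'
  have h1 : ∀ g : K₁ ≃ₐ[K] K₁, g = 1 := by
    intro g
    obtain ⟨f, hf1, hf2⟩ := hf g 1
    apply hc.gen
    apply (algebraMap K₁ L₁).injective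
    rw [← hf1, ← hi, map_pow, hf2]
    rfl
  rw [← IsGalois.card_aut_eq_finrank K K₁]
  have : Subsingleton (K₁ ≃ₐ[K] K₁) := ⟨fun a b => (h1 a).trans (h1 b).symm⟩
  exact Nat.card_eq_one_iff_unique.2 ⟨this, ⟨1⟩⟩

/-- So its roots of unity of `p`-power order are trivial. -/
theorem root_trivial {p : ℕ} [Fact p.Prime] {L : Type} [Field L]
    (h : ¬ ∃ ξ : L, IsPrimitiveRoot ξ p) (ξ : L) (j : ℕ) (hξ : ξ ^ p ^ j = 1) : ξ = 1 := by
  have hp : p.Prime := Fact.out
  induction j with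
  | zero => simpa using hξ
  | succ j ih =>
    by_cases h1 : ξ ^ p ^ j = 1
    · exact ih h1
    · exfalso
      apply h
      refine ⟨ξ ^ p ^ j, ?_⟩
      have h2 : (ξ ^ p ^ j) ^ p = 1 := by rw [← pow_mul, ← pow_succ, hξ]
      have h3 : orderOf (ξ ^ p ^ j) = p := orderOf_eq_prime h2 h1
      have h4 := IsPrimitiveRoot.orderOf (ξ ^ p ^ j)
      rwa [h3] at h4

theorem above_self {k K : Type} [NormedField k] [Field K] (T : Set (K →+* k)) :
    (above T : Set (K →+* k)) = T := by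
  ext τ
  change τ.comp (algebraMap K K) ∈ T ↔ τ ∈ T
  rw [Algebra.algebraMap_self, RingHom.comp_id]

/-! ### The conditions at `T` -/

theorem typ {p : ℕ} [Fact p.Prime] {k : Type} [NormedField k] [NormedAlgebra ℚ_[p] k]
    [IsUltrametricDist k] (hne : Nonempty (AlgebraicClosure ℚ →+* k)) {n : ℕ} {K L Ω : Type} [Field K] [NumberField K]
    [Field L] [NumberField L] [Field Ω] [Algebra K L] [Algebra K Ω] [Algebra L Ω]
    [IsScalarTower K L Ω] [IsAlgClosure L Ω] [IsGalois K L] (hn : finrank K L = p ^ n)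
    (T : Set (K →+* k)) (hT : ∀ σ ∈ T, CondO p K L Ω σ) :
    ∀ σ ∈ T, (∀ τ' : L →+* k, τ'.comp (algebraMap K L) = σ → SplitAt K τ') ∨
      ∀ τ : Ω →+* k, τ.comp (algebraMap K Ω) = σ →
        NoTor (X - C 1 : (ZMod p)[X]) (1 : L ≃ₐ[K] L) τ := by
  intro σ hσ
  have hk : CharZero k := charZero_of_injective_algebraMap (algebraMap ℚ_[p] k).injective
  have : FiniteDimensional K L := Module.Finite.of_restrictScalars_finite ℚ K L
  obtain ⟨ρ⟩ := hne
  rcases hT σ hσ with hA | hB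
  · left
    intro τ' hτ' g hg
    obtain ⟨τ, hτ⟩ := Pool.Agent.Helper99.RL.extend_closure ρ (M := L) (Ω := Ω) τ'
    have hτσ : τ.comp (algebraMap K Ω) = σ := by
      rw [IsScalarTower.algebraMap_eq K L Ω, ← RingHom.comp_assoc, hτ, hτ']
    have hval : ∀ z : L, τ (algebraMap L Ω z) = τ' z := fun z => RingHom.congr_fun hτ z
    refine hA τ hτσ g fun y => ?_
    rw [hval, hval, hg]
  · right
    intro τ hτ
    obtain ⟨g, i, hn1, hr, hi⟩ := hB τ hτ
    set g' : L ≃ₐ[K] L := g.restrictNormal L with hg'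
    have hcom : ∀ x : L, algebraMap L Ω (g' x) = g (algebraMap L Ω x) := fun x =>
      AlgEquiv.restrictNormal_commutes g L x
    have hcard : Nat.card (L ≃ₐ[K] L) = p ^ n := by
      rw [IsGalois.card_aut_eq_finrank K L, hn]
    have hg1 : g' ^ p ^ n = 1 := by
      rw [← hcard]
      exact pow_card_eq_one'
    have hsM : ∀ (j : ℕ) (x : L), (g ^ j) (algebraMap L Ω x) = algebraMap L Ω ((g' ^ j) x) := by
      intro j
      induction j with
      | zero => intro x; rfl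
      | succ j ih =>
        intro x
        rw [pow_succ, AlgEquiv.mul_apply, ← hcom, ih, pow_succ, AlgEquiv.mul_apply]
    refine ⟨((g ^ p ^ n : Ω ≃ₐ[K] Ω) : Ω →+* Ω), 1, i ^ p ^ n, ?_, ?_, ?_, ?_⟩
    · intro x
      exact Pool.Agent.Helper4.RL.norm_pow_aut τ g hn1 (p ^ n) x
    · intro x
      change (g ^ p ^ n) (algebraMap L Ω x) = _
      rw [hsM, hg1, one_pow]
    · intro ξ hξ
      exact Pool.Agent.Helper4.RL.root_pow_aut g i p hr (p ^ n) ξ hξ
    · rw [pow_one]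
      refine isCoprime_X_sub_C_of_isUnit_sub ?_
      rw [isUnit_iff_ne_zero, Nat.cast_pow, ZMod.pow_card_pow]
      exact sub_ne_zero.2 (ne_one_of_norm hi).symm

/-! ### The theorem -/

/-- **O_TRV** -/
theorem o_trv (h1 : O_SUB) : O_TRV := by
  intro p hp k _ _ _ hne Lg n K K₁ L L₁ Ω _ _ _ _ _ _ _ _ _ _ _ _ _ _ _ _ _ _ _ _ ε hcyc
    hK hS T hT a ha hom hC hM x hx
  by_contra hxp
  have hpp : p.Prime := hp.out
  have : IsGalois K L := hS.galL
  have : IsGalois K K₁ := hcyc.gal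
  have : FiniteDimensional K L := Module.Finite.of_restrictScalars_finite ℚ K L
  have : FiniteDimensional K L₁ := Module.Finite.of_restrictScalars_finite ℚ K L₁
  obtain ⟨-, hcK, -, -⟩ := Pool.Agent.Helper90.LE.l_cyc p K K₁ ε hcyc
  obtain ⟨-, hd2, -, hg2, -⟩ := Pool.Agent.Helper30.RL.l_sqr p n K K₁ L L₁ hS
  have hcL : (finrank L L₁).Coprime p := by rw [hd2]; exact hcK
  have hLK := no_root hcyc hK hS
  set P : (ZMod p)[X] := X - C 1 with hP
  have hP1 : P.eval 1 = 0 := by simp [hP]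
  have hirr : Irreducible P := irreducible_X_sub_C 1
  have hLD : LData p 1 n (1 : K ≃ₐ[K] K) (1 : L ≃ₐ[K] L) :=
    ⟨inferInstance, hS.deg, fun x => rfl, one_pow 1, fun g y => rfl⟩
  have hTor : TorOK P (1 : L ≃ₐ[K] L) := by
    refine ⟨0, ?_, ?_⟩
    · simp [hP]
    · intro ξ j hξ
      rw [root_trivial hLK ξ j hξ, map_one, one_pow]
  obtain ⟨V, hV, hVp, hVg⟩ := h1 p k Lg n K K₁ L L₁ hS T a ha
  obtain ⟨x', hx'V, hx'p, hx'g⟩ :=
    Pool.Agent.Helper48.RL.l_fix p K L n hS.deg V hVp hVg ⟨x, (hV x).2 hx, hxp⟩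
  obtain ⟨x₀, -, hxx₀⟩ := Pool.Agent.Helper93.RL.l_des Pool.Agent.Helper11.RL.l_pol p K K L 1 n 1 1
    P hirr hLD hTor x' (pw_pol_one P hP1 x') hx'g
  have hup : up x₀ ∈ V := by
    have h6 := V.div_mem hx'V (hVp _ hxx₀)
    rwa [div_div_cancel] at h6
  have hupS := (hV _).1 hup
  have hx₀0 : (x₀ : K) ≠ 0 := x₀.ne_zero
  have hsig : LocSig Lg T x₀ := by
    have h7 := l_lsd p k hne Lg K K L Ω 1 n 1 1 P hirr hLD T (typ hne hS.deg T hT) x₀
      (pw_pol_one P hP1 x₀) (by rw [above_self]; exact hupS.sig)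
    rwa [above_self] at h7
  have hSel : SelO Lg T a x₀ := by
    refine ⟨?_, hsig⟩
    intro W
    obtain ⟨W', hW'⟩ := Pool.Agent.Helper42.RS.exists_above (M := K₁) (H := L₁) W
    have hWW : Above W' W := hW'.over.symm
    have hvW : Above W (bel K W) := rfl
    have hVW : Above W' (bel L W') := rfl
    have hVv : Above (bel L W') (bel K W) := above_sq hWW hVW hvW
    have hlocW := hupS.loc W'
    have htr := Pool.Agent.Helper40.RD.e_trf p K K₁ hcK W (bel K W) hvW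
    have htrL := Pool.Agent.Helper40.RD.e_trf p L L₁ hcL W' (bel L W') hVW
    have hcomm : algebraMap L L₁ ((up x₀ : Lˣ) : L) = algebraMap K₁ L₁ (algebraMap K K₁ (x₀ : K)) := by
      change algebraMap L L₁ (algebraMap K L (x₀ : K)) = _
      rw [← IsScalarTower.algebraMap_apply K L L₁, ← IsScalarTower.algebraMap_apply K K₁ L₁]
    have hmul : ∀ y : K₁, (p : ℤ) ∣ ordv W y → (p : ℤ) ∣ ordv W' (algebraMap K₁ L₁ y) := by
      intro y hy
      rw [ordW W' y, bel_of_above hWW]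
      exact Dvd.dvd.mul_left hy _
    refine ⟨?_, ?_⟩
    · intro hWa
      rw [htr.1]
      have hQ : ∀ Q : HeightOneSpectrum (𝓞 K₁), Above Q (bel K W) → (p : ℤ) ∣ ordv Q a := by
        intro Q hQ
        refine dvd_of_conj hpp.ne_zero ha hom (Q' := W) ?_ hWa
        exact conj_of_bel' (bel_of_above hQ).symm
      by_cases hat : AtT T (bel K W)
      · obtain ⟨τ, hτ, hτv⟩ := hat
        obtain ⟨y, hy⟩ := hsig 0
        have h6 : ordv (bel K W) (((x₀ * y ^ p : Kˣ)) : K) = 0 :=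
          ordv_of_norm (bel K W) τ hτv (hy τ hτ).1
        rw [Units.val_mul, Units.val_pow_eq_pow_val,
          Pool.Agent.Helper49.RL.ordv_mul _ hx₀0 (pow_ne_zero _ y.ne_zero),
          Pool.Agent.Helper49.RL.ordv_pow] at h6
        exact ⟨-ordv (bel K W) (y : K), by linarith⟩
      · have h8 := hC.unr (bel K W) hQ hat (bel L W') hVv (x₀ : K)
        rw [← h8]
        have h9 := hlocW.1 (hmul a hWa)
        exact (htrL.1 _).1 h9
    · intro hWa
      have hfree : FreeP K (bel L W') := hC.split (bel K W) ⟨W, hvW, hWa⟩ (bel L W') hVv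
      obtain ⟨hord, hres⟩ := Pool.Agent.Helper2.RL.l_ef1 p n K K₁ L L₁ hS W' W (bel L W') hWW hVW
        hfree
      have h9 := hlocW.2 (by rw [hord]; exact hWa)
      obtain ⟨i, hi⟩ := h9
      refine ⟨i, tame_desc p W' W (val_eq W' W hord) hres _ hpp.ne_zero ?_⟩
      rw [hcomm] at hi
      rw [map_mul, map_pow, map_mul, map_pow, map_neg, map_one]
      exact hi
  obtain ⟨y, hy⟩ := hM x₀ hSel
  apply hx'p
  obtain ⟨w, hw⟩ := hxx₀
  refine ⟨w * up y, ?_⟩
  have h6 : up x₀ = (up y : Lˣ) ^ p := by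
    rw [hy]
    unfold up
    rw [map_pow]
  rw [mul_pow, ← h6, ← hw, div_mul_cancel]

end Pool.Agent.Helper86.PPO
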